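import Pool.Agent.MP_671186_gt.SLow
import Pool.Agent.MP_671186_gt.STop

set_option autoImplicit false

open Pool.Agent.MP_671186_gt

theorem Pool.Agent.Results.MP_671186_gt.SingOrder.result (d s m : ℕ) (hs : s < d) (D : ℝ)
    (hD : 0 < D) (α : Fin d → ℝ) :
    (∀ P : Set (Set (Fin d → ℝ)), Setoid.IsPartition P →
      (∀ X ∈ P, ∀ x ∈ X, ∀ y ∈ X, dist x y < D) →
      {X ∈ P | (X ∩ cube α D).Nonempty}.Countable →
      DimLT (s + 1) (Sing (cube α D) P) →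
      ∃ p : Fin d → ℝ, (m : ℕ∞) ≤ {X ∈ P | p ∈ closure X}.encard) ↔
    m ≤ d - s + 1 := by
  constructor
  · intro h
    obtain ⟨P, h1, h2, h3, h4, h5⟩ := sing_upper hs hD
    obtain ⟨p, hp⟩ := h P h1 h3 (h2.mono (Set.sep_subset _ _)) (h4 α)
    exact_mod_cast hp.trans (h5 p)
  · intro h P h1 h2 h3 h4
    obtain ⟨p, hp⟩ := sing_lower hs.le hD α P h1 h2 h3 h4
    exact ⟨p, le_trans (by exact_mod_cast h) hp⟩
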