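import Pool.Agent.Mg.F671186.Gf0de84

set_option autoImplicit false

open Pool.Agent.MP_671186_gt

theorem Pool.Agent.Results.MP_671186_gt.WidthOrder.result (d k m : ℕ) (hd : 1 ≤ d) (D : ℝ)
    (hD : 0 < D) (α : Fin d → ℝ) :
    (∀ P : Set (Set (Fin d → ℝ)), Adm k D α P →
      ∃ p : Fin d → ℝ, (m : ℕ∞) ≤ {X ∈ P | p ∈ closure X}.encard) ↔
    m ≤ (d + k) / (k + 1) + 1 := by
  constructor
  · intro h
    obtain ⟨P, -, h1, h2⟩ := upper hd k hD
    obtain ⟨p, hp⟩ := h P (h1 α)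
    exact_mod_cast hp.trans (h2 p)
  · intro h P hP
    obtain ⟨p, hp⟩ := lower hd k hD α P hP
    exact ⟨p, le_trans (by exact_mod_cast h) hp⟩
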